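import Pool.Agent.Helper84.SV.Defs

set_option autoImplicit false

/-!
MP_f22a19_gt, module P: lower bounds for the `ℓ¹`-seminorm on a simplicial complex through a
covering space and a bounded invariant cocycle.
-/

open Set Finset Topology

namespace Pool.Agent.Helper26.PM

open Pool.SV

/-! ### Coverings from cocycles -/

section Cover

variable {B V G : Type*} [TopologicalSpace B] [Group G] [TopologicalSpace G] [DiscreteTopology G]

/-- an open cover with locally constant transition functions -/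
structure Atl (B V G : Type*) [TopologicalSpace B] [Group G] where
  /-- the open sets -/
  U : V → Set B
  isOpen : ∀ i, IsOpen (U i)
  /-- a chosen set around a point -/
  idx : B → V
  mem : ∀ x, x ∈ U (idx x)
  /-- transition functions -/
  g : V → V → G
  mul : ∀ i j k x, x ∈ U i → x ∈ U j → x ∈ U k → g i j * g j k = g i k

variable (T : Atl B V G)

omit [TopologicalSpace G] [DiscreteTopology G] in
theorem Atl.self {i : V} {x : B} (h : x ∈ T.U i) : T.g i i = 1 := by
  have := T.mul i i i x h h h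
  exact mul_eq_left.1 this

/-- the bundle -/
def Atl.core : FiberBundleCore V B G where
  baseSet := T.U
  isOpen_baseSet := T.isOpen
  indexAt := T.idx
  mem_baseSet_at := T.mem
  coordChange := fun i j _ h => h * T.g i j
  coordChange_self := by
    intro i x hx v
    rw [T.self hx, mul_one]
  continuousOn_coordChange := by
    intro i j
    have : Continuous (fun p : B × G => p.2 * T.g i j) :=
      (continuous_of_discreteTopology (f := fun h : G => h * T.g i j)).comp continuous_snd
    exact this.continuousOn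
  coordChange_comp := by
    intro i j k x hx v
    rw [mul_assoc, T.mul i j k x hx.1.1 hx.1.2 hx.2]

/-- the covering space -/
abbrev Atl.E : Type _ := T.core.TotalSpace

/-- the projection -/
def Atl.p : T.E → B := T.core.proj

theorem Atl.cov : IsCoveringMap T.p :=
  FiberBundle.isCoveringMap (F := G) (E := T.core.Fiber)

/-- the fibre coordinate -/
def Atl.co (y : T.E) : G := y.2

/-- the point with given base point and fibre coordinate -/
def Atl.pt (x : B) (h : G) : T.E := ⟨x, h⟩

@[simp] theorem Atl.p_pt (x : B) (h : G) : T.p (T.pt x h) = x := rfl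

@[simp] theorem Atl.co_pt (x : B) (h : G) : T.co (T.pt x h) = h := rfl

theorem Atl.pt_eta (y : T.E) : T.pt (T.p y) (T.co y) = y := rfl

theorem Atl.ext' {y y' : T.E} (h1 : T.p y = T.p y') (h2 : T.co y = T.co y') : y = y' := by
  rw [← T.pt_eta y, ← T.pt_eta y', h1, h2]

theorem Atl.cont_p : Continuous T.p := T.core.continuous_proj

/-- a map into the covering is continuous if it is so in local coordinates -/
theorem Atl.continuousAt_of {A : Type*} [TopologicalSpace A] (f : A → T.E) (a : A) (i : V)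
    (hp : ContinuousAt (fun a => T.p (f a)) a) (hi : T.p (f a) ∈ T.U i)
    (hc : ContinuousAt (fun a => T.co (f a) * T.g (T.idx (T.p (f a))) i) a) :
    ContinuousAt f a := by
  have hnh : f ⁻¹' (T.core.localTriv i).source ∈ 𝓝 a := by
    have : f ⁻¹' (T.core.localTriv i).source = (fun a => T.p (f a)) ⁻¹' (T.U i) := by
      ext b
      rw [Set.mem_preimage, FiberBundleCore.mem_localTriv_source]
      rfl
    rw [this]
    exact hp ((T.isOpen i).mem_nhds hi)
  rw [(T.core.localTriv i).toOpenPartialHomeomorph.continuousAt_iff_continuousAt_comp_left hnh]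
  exact hp.prodMk hc

theorem Atl.continuousAt_coord {y : T.E} {i : V} (hi : T.p y ∈ T.U i) :
    ContinuousAt (fun y => T.co y * T.g (T.idx (T.p y)) i) y := by
  have hsrc : y ∈ (T.core.localTriv i).source := by
    rw [FiberBundleCore.mem_localTriv_source]
    exact hi
  have h1 := (T.core.localTriv i).continuousAt hsrc
  exact continuousAt_snd.comp h1

/-- the action of `G` on the covering space -/
def Atl.act (a : G) (y : T.E) : T.E := T.pt (T.p y) (a * T.co y)

theorem Atl.cont_act (a : G) : Continuous (T.act a) := by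
  rw [continuous_iff_continuousAt]
  intro y
  refine T.continuousAt_of _ y (T.idx (T.p y)) ?_ (T.mem _) ?_
  · exact T.cont_p.continuousAt
  · have h1 := T.continuousAt_coord (T.mem (T.p y))
    have h2 : Continuous (fun h : G => a * h) := continuous_of_discreteTopology
    have h3 := ContinuousAt.comp (f := fun y' : T.E =>
      T.co y' * T.g (T.idx (T.p y')) (T.idx (T.p y))) (x := y) h2.continuousAt h1
    refine h3.congr (Filter.Eventually.of_forall fun z => ?_)
    change a * (T.co z * T.g (T.idx (T.p z)) (T.idx (T.p y))) =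
      a * T.co z * T.g (T.idx (T.p z)) (T.idx (T.p y))
    rw [mul_assoc]

/-! ### Lifts of simplices -/

variable {q : ℕ}

/-- the standard simplex -/
abbrev Δ (q : ℕ) : Type := stdSimplex ℝ (Fin (q + 1))

/-- the straight contraction of the simplex to a point -/
noncomputable def contr (q : ℕ) (x₀ : Δ q) : C(unitInterval × Δ q, Δ q) where
  toFun := fun z => ⟨(1 - (z.1 : ℝ)) • (x₀ : Fin (q + 1) → ℝ) + (z.1 : ℝ) • (z.2 : Fin (q + 1) → ℝ),
    convex_stdSimplex ℝ _ x₀.2 z.2.2 (by linarith [z.1.2.2]) z.1.2.1 (by ring)⟩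
  continuous_toFun := by
    refine Continuous.subtype_mk ?_ _
    fun_prop

theorem contr_zero (x₀ x : Δ q) : contr q x₀ (0, x) = x₀ := by
  apply Subtype.ext
  change (1 - ((0 : unitInterval) : ℝ)) • (x₀ : Fin (q + 1) → ℝ) +
    ((0 : unitInterval) : ℝ) • (x : Fin (q + 1) → ℝ) = x₀
  simp

theorem contr_one (x₀ x : Δ q) : contr q x₀ (1, x) = x := by
  apply Subtype.ext
  change (1 - ((1 : unitInterval) : ℝ)) • (x₀ : Fin (q + 1) → ℝ) +
    ((1 : unitInterval) : ℝ) • (x : Fin (q + 1) → ℝ) = x
  simp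

theorem Atl.exists_lift (σ : C(Δ q, B)) : ∃ s : C(Δ q, T.E), ∀ t, T.p (s t) = σ t := by
  obtain ⟨x₀⟩ : Nonempty (Δ q) := inferInstance
  let H : C(unitInterval × Δ q, B) := σ.comp (contr q x₀)
  let f : C(Δ q, T.E) := ContinuousMap.const _ (T.pt (σ x₀) 1)
  have H0 : ∀ a, H (0, a) = T.p (f a) := by
    intro a
    change σ (contr q x₀ (0, a)) = T.p (T.pt (σ x₀) 1)
    rw [contr_zero, Atl.p_pt]
  refine ⟨(T.cov.liftHomotopy H f H0).comp ⟨fun t => (1, t), by fun_prop⟩, fun t => ?_⟩
  have h1 := congr_fun (T.cov.liftHomotopy_lifts H f H0) (1, t)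
  change T.p (T.cov.liftHomotopy H f H0 (1, t)) = σ (contr q x₀ (1, t)) at h1
  rw [contr_one] at h1
  exact h1

/-- the chosen lift -/
noncomputable def Atl.lift (σ : C(Δ q, B)) : C(Δ q, T.E) := (T.exists_lift σ).choose

theorem Atl.p_lift (σ : C(Δ q, B)) (t : Δ q) : T.p (T.lift σ t) = σ t :=
  (T.exists_lift σ).choose_spec t

/-- two lifts differ by an element of the group -/
theorem Atl.lift_unique (s s' : C(Δ q, T.E)) (h : ∀ t, T.p (s t) = T.p (s' t)) :
    ∃ a : G, ∀ t, s t = T.act a (s' t) := by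
  obtain ⟨x₀⟩ : Nonempty (Δ q) := inferInstance
  refine ⟨T.co (s x₀) * (T.co (s' x₀))⁻¹, fun t => ?_⟩
  have h1 := T.cov.eq_of_comp_eq (A := Δ q) (g₁ := s)
    (g₂ := fun t => T.act (T.co (s x₀) * (T.co (s' x₀))⁻¹) (s' t))
    s.continuous ((T.cont_act _).comp s'.continuous) (by
      funext t
      exact h t) x₀ (by
      apply T.ext'
      · exact h x₀
      · simp [Atl.act])
  exact congr_fun h1 t

/-! ### The cochain -/

/-- the label of a point of the covering space -/
def Atl.lab (y : T.E) : V × G := (T.idx (T.p y), T.co y)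

/-- the vertices of the simplex -/
noncomputable def vtx (q : ℕ) (i : Fin (q + 1)) : Δ q := stdSimplex.vertex i

/-- labels of the vertices of a simplex of the covering space -/
noncomputable def Atl.labs (s : C(Δ q, T.E)) (i : Fin (q + 1)) : V × G := T.lab (s (vtx q i))

/-- the cochain defined by a function of the labels -/
noncomputable def Atl.coch (F : (Fin (q + 1) → V × G) → ℝ) (σ : Sing B q) : ℝ :=
  F (T.labs (T.lift σ))

theorem Atl.coch_eq (F : (Fin (q + 1) → V × G) → ℝ)
    (hinv : ∀ (a : G) (y : Fin (q + 1) → V × G), F (fun i => ((y i).1, a * (y i).2)) = F y)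
    (σ : Sing B q) (s : C(Δ q, T.E)) (hs : ∀ t, T.p (s t) = σ t) :
    T.coch F σ = F (T.labs s) := by
  obtain ⟨a, ha⟩ := T.lift_unique (T.lift σ) s (fun t => by rw [T.p_lift, hs])
  unfold Atl.coch
  rw [← hinv a (T.labs s)]
  congr 1
  funext i
  unfold Atl.labs
  rw [ha]
  rfl

theorem face_vtx (q : ℕ) (i : Fin (q + 2)) (j : Fin (q + 1)) :
    face q i (vtx q j) = vtx (q + 1) (i.succAbove j) := by
  unfold face vtx
  change stdSimplex.map (Fin.succAbove i) (stdSimplex.vertex j) = _
  rw [stdSimplex.map_vertex]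

theorem Atl.coch_bd (F : (Fin (q + 1) → V × G) → ℝ)
    (hinv : ∀ (a : G) (y : Fin (q + 1) → V × G), F (fun i => ((y i).1, a * (y i).2)) = F y)
    (hcoc : ∀ y : Fin (q + 2) → V × G,
      ∑ i : Fin (q + 2), (-1 : ℝ) ^ (i : ℕ) * F (fun j => y (i.succAbove j)) = 0)
    (b : Chain B (q + 1)) :
    Finsupp.linearCombination ℝ (T.coch F) (bd B q b) = 0 := by
  unfold bd
  induction b using Finsupp.induction_linear with
  | zero => simp
  | add b1 b2 h1 h2 => rw [map_add, map_add, h1, h2, add_zero]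
  | single σ r =>
    rw [Finsupp.linearCombination_single, map_smul, map_sum]
    have h1 : ∀ i : Fin (q + 2), Finsupp.linearCombination ℝ (T.coch F)
        (((-1 : ℝ) ^ (i : ℕ)) • Finsupp.single (σ.comp (face q i)) (1 : ℝ)) =
        (-1 : ℝ) ^ (i : ℕ) * F (fun j => T.labs (T.lift σ) (i.succAbove j)) := by
      intro i
      rw [map_smul, Finsupp.linearCombination_single, one_smul, smul_eq_mul]
      congr 1
      rw [T.coch_eq F hinv (σ.comp (face q i)) ((T.lift σ).comp (face q i))
        (fun t => T.p_lift σ _)]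
      congr 1
      funext j
      unfold Atl.labs
      rw [ContinuousMap.comp_apply, face_vtx]
    rw [Finset.sum_congr rfl (fun i _ => h1 i), hcoc, smul_zero]

theorem Atl.coch_le (F : (Fin (q + 1) → V × G) → ℝ) (C : ℝ) (hC : ∀ y, |F y| ≤ C)
    (z : Chain B q) : |Finsupp.linearCombination ℝ (T.coch F) z| ≤ C * nrm z := by
  rw [Finsupp.linearCombination_apply, Finsupp.sum, nrm, Finsupp.sum, Finset.mul_sum]
  refine (Finset.abs_sum_le_sum_abs _ _).trans (Finset.sum_le_sum fun σ _ => ?_)
  rw [smul_eq_mul, abs_mul, mul_comm]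
  exact mul_le_mul_of_nonneg_right (hC _) (abs_nonneg _)

end Cover

/-! ### Simplicial complexes -/

section Complex

variable {V : Type*} [Fintype V] [DecidableEq V]

/-- the geometric realisation of the simplicial complex with facets `K`, as a subset of `ℝ^V` -/
def Poly (K : Set (Finset V)) : Set (V → ℝ) :=
  {x | (∀ v, 0 ≤ x v) ∧ ∑ v, x v = 1 ∧ ∃ s ∈ K, ∀ v, x v ≠ 0 → v ∈ s}

/-- the barycentric coordinates of a point of an affine simplex -/
def bary {q : ℕ} (c : Fin (q + 1) → V) (t : Fin (q + 1) → ℝ) (v : V) : ℝ :=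
  ∑ i, if c i = v then t i else 0

theorem bary_mem {K : Set (Finset V)} {q : ℕ} {c : Fin (q + 1) → V} (hc : ∃ s ∈ K, ∀ i, c i ∈ s)
    {t : Fin (q + 1) → ℝ} (ht : t ∈ stdSimplex ℝ (Fin (q + 1))) : bary c t ∈ Poly K := by
  refine ⟨fun v => Finset.sum_nonneg fun i _ => ?_, ?_, ?_⟩
  · split_ifs
    · exact ht.1 i
    · exact le_rfl
  · unfold bary
    rw [Finset.sum_comm]
    calc ∑ i, ∑ v, (if c i = v then t i else 0) = ∑ i, t i := by
          refine Finset.sum_congr rfl fun i _ => ?_
          rw [Finset.sum_ite_eq]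
          simp
      _ = 1 := ht.2
  · obtain ⟨s, hs, hcs⟩ := hc
    refine ⟨s, hs, fun v hv => ?_⟩
    by_contra hvs
    apply hv
    refine Finset.sum_eq_zero fun i _ => ?_
    rw [if_neg]
    intro h
    exact hvs (h ▸ hcs i)

/-- the affine simplex with vertices `c` -/
def spx (K : Set (Finset V)) {q : ℕ} (c : Fin (q + 1) → V) (hc : ∃ s ∈ K, ∀ i, c i ∈ s) :
    Sing (Poly K) q where
  toFun := fun t => ⟨bary c t.1, bary_mem hc t.2⟩
  continuous_toFun := by
    refine Continuous.subtype_mk (continuous_pi fun v => ?_) _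
    refine continuous_finsetSum _ fun i _ => ?_
    split_ifs
    · exact (continuous_apply i).comp continuous_subtype_val
    · exact continuous_const

theorem exists_pos {K : Set (Finset V)} (x : Poly K) : ∃ v, 0 < x.1 v := by
  by_contra h
  push Not at h
  have h1 : ∑ v, x.1 v ≤ 0 := Finset.sum_nonpos fun v _ => h v
  rw [x.2.2.1] at h1
  linarith

variable {G : Type*} [Group G] [TopologicalSpace G] [DiscreteTopology G]

/-- the atlas given by the open stars of the vertices -/
noncomputable def starAtl (K : Set (Finset V)) (g : V → V → G)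
    (hg : ∀ s ∈ K, ∀ i ∈ s, ∀ j ∈ s, ∀ k ∈ s, g i j * g j k = g i k) : Atl (Poly K) V G where
  U := fun v => {x | 0 < x.1 v}
  isOpen := fun v => isOpen_lt continuous_const ((continuous_apply v).comp continuous_subtype_val)
  idx := fun x => (exists_pos x).choose
  mem := fun x => (exists_pos x).choose_spec
  g := g
  mul := by
    intro i j k x hi hj hk
    obtain ⟨s, hs, hx⟩ := x.2.2.2
    exact hg s hs i (hx i (ne_of_gt hi)) j (hx j (ne_of_gt hj)) k (hx k (ne_of_gt hk))

theorem idx_bary {K : Set (Finset V)} {q : ℕ} (g : V → V → G)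
    (hg : ∀ s ∈ K, ∀ i ∈ s, ∀ j ∈ s, ∀ k ∈ s, g i j * g j k = g i k)
    (c : Fin (q + 1) → V) (s : Finset V) (hs : s ∈ K) (hc : ∀ i, c i ∈ s) (t : Δ q) :
    (starAtl K g hg).idx (spx K c ⟨s, hs, hc⟩ t) ∈ s := by
  have h := (starAtl K g hg).mem (spx K c ⟨s, hs, hc⟩ t)
  by_contra hn
  have h1 : 0 < bary c t.1 ((starAtl K g hg).idx (spx K c ⟨s, hs, hc⟩ t)) := h
  have h2 : bary c t.1 ((starAtl K g hg).idx (spx K c ⟨s, hs, hc⟩ t)) = 0 := by
    refine Finset.sum_eq_zero fun i _ => ?_
    rw [if_neg]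
    intro h
    exact hn (h ▸ hc i)
  rw [h2] at h1
  exact lt_irrefl _ h1

/-- the explicit lift of an affine simplex -/
noncomputable def lspx {K : Set (Finset V)} {q : ℕ} (g : V → V → G)
    (hg : ∀ s ∈ K, ∀ i ∈ s, ∀ j ∈ s, ∀ k ∈ s, g i j * g j k = g i k)
    (c : Fin (q + 1) → V) (s : Finset V) (hs : s ∈ K) (hc : ∀ i, c i ∈ s) :
    C(Δ q, (starAtl K g hg).E) where
  toFun := fun t => (starAtl K g hg).pt (spx K c ⟨s, hs, hc⟩ t)
    (g (c 0) ((starAtl K g hg).idx (spx K c ⟨s, hs, hc⟩ t)))
  continuous_toFun := by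
    rw [continuous_iff_continuousAt]
    intro t
    refine (starAtl K g hg).continuousAt_of _ t
      ((starAtl K g hg).idx (spx K c ⟨s, hs, hc⟩ t)) ?_ ?_ ?_
    · exact (spx K c ⟨s, hs, hc⟩).continuous.continuousAt
    · exact (starAtl K g hg).mem _
    · have h1 : ∀ t' : Δ q, g (c 0) ((starAtl K g hg).idx (spx K c ⟨s, hs, hc⟩ t')) *
          g ((starAtl K g hg).idx (spx K c ⟨s, hs, hc⟩ t'))
            ((starAtl K g hg).idx (spx K c ⟨s, hs, hc⟩ t)) =
          g (c 0) ((starAtl K g hg).idx (spx K c ⟨s, hs, hc⟩ t)) := fun t' =>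
        hg s hs _ (hc 0) _ (idx_bary g hg c s hs hc t') _ (idx_bary g hg c s hs hc t)
      have h2 : ContinuousAt (fun _ : Δ q =>
          g (c 0) ((starAtl K g hg).idx (spx K c ⟨s, hs, hc⟩ t))) t := continuousAt_const
      exact h2.congr (Filter.Eventually.of_forall fun t' => (h1 t').symm)

theorem bary_vertex {q : ℕ} (c : Fin (q + 1) → V) (i : Fin (q + 1)) (v : V)
    (h : 0 < bary c (vtx q i).1 v) : v = c i := by
  by_contra hne
  have h2 : bary c (vtx q i).1 v = 0 := by
    refine Finset.sum_eq_zero fun j _ => ?_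
    split_ifs with hj
    · have hij : j ≠ i := by
        rintro rfl
        exact hne hj.symm
      unfold vtx
      change (stdSimplex.vertex i : stdSimplex ℝ (Fin (q + 1))) j = 0
      rw [stdSimplex.vertex_coe]
      simp [hij]
    · rfl
  rw [h2] at h
  exact lt_irrefl _ h

theorem labs_lspx {K : Set (Finset V)} {q : ℕ} (g : V → V → G)
    (hg : ∀ s ∈ K, ∀ i ∈ s, ∀ j ∈ s, ∀ k ∈ s, g i j * g j k = g i k)
    (c : Fin (q + 1) → V) (s : Finset V) (hs : s ∈ K) (hc : ∀ i, c i ∈ s) (i : Fin (q + 1)) :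
    (starAtl K g hg).labs (lspx g hg c s hs hc) i = (c i, g (c 0) (c i)) := by
  have h1 : (starAtl K g hg).idx (spx K c ⟨s, hs, hc⟩ (vtx q i)) = c i :=
    bary_vertex c i _ ((starAtl K g hg).mem (spx K c ⟨s, hs, hc⟩ (vtx q i)))
  change ((starAtl K g hg).idx (spx K c ⟨s, hs, hc⟩ (vtx q i)),
    g (c 0) ((starAtl K g hg).idx (spx K c ⟨s, hs, hc⟩ (vtx q i)))) = _
  rw [h1]

end Complex

/-- **Lower bound.**  A bounded invariant cocycle on the vertices of the covering of the
polyhedron of `K` with group `G` bounds the norm of all singular cycles homologous to a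
simplicial one. -/
theorem lower_bound {V : Type*} [Fintype V] [DecidableEq V] {G : Type*} [Group G]
    (K : Set (Finset V)) (g : V → V → G)
    (hg : ∀ s ∈ K, ∀ i ∈ s, ∀ j ∈ s, ∀ k ∈ s, g i j * g j k = g i k) {q : ℕ}
    (F : (Fin (q + 1) → V × G) → ℝ) (C : ℝ) (hC : ∀ y, |F y| ≤ C)
    (hinv : ∀ (a : G) (y : Fin (q + 1) → V × G), F (fun i => ((y i).1, a * (y i).2)) = F y)
    (hcoc : ∀ y : Fin (q + 2) → V × G,
      ∑ i : Fin (q + 2), (-1 : ℝ) ^ (i : ℕ) * F (fun j => y (i.succAbove j)) = 0)
    {ι : Type*} (I : Finset ι) (ε : ι → ℝ) (c : ι → Fin (q + 1) → V)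
    (hc : ∀ a, ∃ s ∈ K, ∀ i, c a i ∈ s) (b : Chain (Poly K) (q + 1)) :
    |∑ a ∈ I, ε a * F (fun i => (c a i, g (c a 0) (c a i)))| ≤
      C * nrm ((∑ a ∈ I, ε a • Finsupp.single (spx K (c a) (hc a)) (1 : ℝ)) +
        bd (Poly K) q b) := by
  letI : TopologicalSpace G := ⊥
  haveI : DiscreteTopology G := ⟨rfl⟩
  have h1 := (starAtl K g hg).coch_le F C hC
    ((∑ a ∈ I, ε a • Finsupp.single (spx K (c a) (hc a)) (1 : ℝ)) + bd (Poly K) q b)
  rw [map_add, (starAtl K g hg).coch_bd F hinv hcoc b, add_zero, map_sum] at h1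
  have h2 : ∀ a ∈ I, Finsupp.linearCombination ℝ ((starAtl K g hg).coch F)
      (ε a • Finsupp.single (spx K (c a) (hc a)) (1 : ℝ)) =
      ε a * F (fun i => (c a i, g (c a 0) (c a i))) := by
    intro a _
    rw [map_smul, Finsupp.linearCombination_single, one_smul, smul_eq_mul]
    congr 1
    obtain ⟨s, hs, hcs⟩ := hc a
    rw [(starAtl K g hg).coch_eq F hinv (spx K (c a) (hc a)) (lspx g hg (c a) s hs hcs)
      (fun t => rfl)]
    congr 1
    funext i
    exact labs_lspx g hg (c a) s hs hcs i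
  rw [Finset.sum_congr rfl h2] at h1
  exact h1

end Pool.Agent.Helper26.PM
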