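import Pool.Agent.Helper26.PM.Pos

set_option autoImplicit false

/-!
MP_f22a19_gt, module P: the lower bound in a form which is independent of the way in which the
polyhedron and its affine simplices are written down.
-/

open Set Finset Topology

namespace Pool.Agent.Helper26.PM

open Pool.SV

/-- **Lower bound**, flexible form: `S` is the polyhedron of the complex with facets `K`, `τ a` the
affine singular simplex with vertices `c a`. -/
theorem lower_bound_set {V : Type*} [Fintype V] [DecidableEq V] {G : Type*} [Group G]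
    (S : Set (V → ℝ)) (K : Set (Finset V))
    (hS : ∀ x, x ∈ S ↔ (x ∈ stdSimplex ℝ V ∧ ∃ s ∈ K, ∀ v, x v ≠ 0 → v ∈ s))
    (g : V → V → G)
    (hg : ∀ s ∈ K, ∀ i ∈ s, ∀ j ∈ s, ∀ k ∈ s, g i j * g j k = g i k) {q : ℕ}
    (F : (Fin (q + 1) → V × G) → ℝ) (C : ℝ) (hC : ∀ y, |F y| ≤ C)
    (hinv : ∀ (a : G) (y : Fin (q + 1) → V × G), F (fun i => ((y i).1, a * (y i).2)) = F y)
    (hcoc : ∀ y : Fin (q + 2) → V × G,
      ∑ i : Fin (q + 2), (-1 : ℝ) ^ (i : ℕ) * F (fun j => y (i.succAbove j)) = 0)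
    {ι : Type*} (I : Finset ι) (ε : ι → ℝ) (c : ι → Fin (q + 1) → V)
    (hc : ∀ a, ∃ s ∈ K, ∀ i, c a i ∈ s)
    (τ : ι → Sing S q) (hτ : ∀ a t v, (τ a t).1 v = ∑ i, if c a i = v then t.1 i else 0)
    (b : Chain S (q + 1)) :
    |∑ a ∈ I, ε a * F (fun i => (c a i, g (c a 0) (c a i)))| ≤
      C * nrm ((∑ a ∈ I, ε a • Finsupp.single (τ a) (1 : ℝ)) + bd S q b) := by
  have hSK : S = Poly K := by
    ext x
    rw [hS]
    constructor
    · rintro ⟨h1, h2⟩
      exact ⟨h1.1, h1.2, h2⟩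
    · rintro ⟨h1, h2, h3⟩
      exact ⟨⟨h1, h2⟩, h3⟩
  subst hSK
  have h1 := lower_bound K g hg F C hC hinv hcoc I ε c hc b
  have h2 : ∀ a, τ a = spx K (c a) (hc a) := by
    intro a
    ext t v
    exact hτ a t v
  simp only [h2]
  exact h1

end Pool.Agent.Helper26.PM
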