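import Pool.Agent.Helper69.CX.Line
import Pool.Agent.Helper69.CX.Check
import Pool.Agent.Helper68.BW.Eis
import Pool.Agent.Helper79.CX.Cert

set_option autoImplicit false

/-!
MP_f22a19_gt, project CX, item (5): the projective labels of the double from tables of Eisenstein
integers, the cocycle condition in the facets and the value of the cocycle on the triangulation.
-/

namespace Pool.Agent.Helper26.PM

open Pool.Agent.Helper68.BW hiding act
open Helper69.CX

/-! ### Cocycle conditions in a facet, for any group -/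

/-- the test of the cocycle condition for a list of vertices -/
def chkRel (rel : ℕ → ℕ → ℕ → Bool) (lab : ℕ → ℕ → ℕ) (L : List ℕ) : Bool :=
  match L with
  | [] => true
  | a :: _ => L.all fun x => L.all fun y => rel (lab a x) (lab x y) (lab a y)

theorem coc_of_chkRel {G : Type*} [Group G] (A : ℕ → G) {rel : ℕ → ℕ → ℕ → Bool}
    (hrel : ∀ i j k, rel i j k = true → A i * A j = A k) {lab : ℕ → ℕ → ℕ} {L : List ℕ}
    (h : chkRel rel lab L = true) : ∀ x ∈ L, ∀ y ∈ L, ∀ z ∈ L,
      A (lab x y) * A (lab y z) = A (lab x z) := by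
  rcases L with _ | ⟨a, L⟩
  · intro x hx
    simp at hx
  · have h1 : ∀ x ∈ a :: L, ∀ y ∈ a :: L, A (lab a x) * A (lab x y) = A (lab a y) := by
      intro x hx y hy
      unfold chkRel at h
      rw [List.all_eq_true] at h
      have h2 := h x hx
      rw [List.all_eq_true] at h2
      exact hrel _ _ _ (h2 y hy)
    intro x hx y hy z hz
    have h3 := h1 x hx y hy
    have h4 := h1 y hy z hz
    have h5 := h1 x hx z hz
    have h6 : A (lab x y) = (A (lab a x))⁻¹ * A (lab a y) := by rw [← h3]; group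
    have h7 : A (lab y z) = (A (lab a y))⁻¹ * A (lab a z) := by rw [← h4]; group
    have h8 : A (lab x z) = (A (lab a x))⁻¹ * A (lab a z) := by rw [← h5]; group
    rw [h6, h7, h8]
    group

/-! ### Points and permutations of the projective line -/

/-- the permutation given by a matrix of Eisenstein integers (the identity if singular) -/
noncomputable def permI (g : QM) : Equiv.Perm PL :=
  open Classical in if h : (mC (-1) 1 g).det ≠ 0 then perm _ h else 1

/-- the point given by a vector of Eisenstein integers -/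
noncomputable def ptI (v : QV) : PL :=
  open Classical in if h : vC (-1) 1 v ≠ 0 then Projectivization.mk ℂ _ h
    else Projectivization.mk ℂ ((1, 0) : ℂ × ℂ) (by simp)

theorem VP_permI (g : QM) (a b c d : PL) :
    VP (permI g a) (permI g b) (permI g c) (permI g d) = VP a b c d := by
  unfold permI
  split_ifs with h
  · exact VP_perm _ h _ _ _ _
  · rfl

theorem permI_eq {g : QM} (h : qdet (-1) 1 g ≠ (0, 0)) :
    ∃ h' : (mC (-1) 1 g).det ≠ 0, permI g = perm _ h' := by
  have h' : (mC (-1) 1 g).det ≠ 0 := by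
    rw [det_mC eis]
    exact toC_ne_zero eis h
  exact ⟨h', by unfold permI; rw [dif_pos h']⟩

theorem ptI_eq {v : QV} (h : v ≠ ((0, 0), (0, 0))) :
    ∃ h' : vC (-1) 1 v ≠ 0, ptI v = Projectivization.mk ℂ _ h' := by
  have h' := vC_ne_zero eis h
  exact ⟨h', by unfold ptI; rw [dif_pos h']⟩

theorem qact_ne_zero {g : QM} {v : QV} (hg : qdet (-1) 1 g ≠ (0, 0)) (hv : v ≠ ((0, 0), (0, 0))) :
    qact (-1) 1 g v ≠ ((0, 0), (0, 0)) := by
  intro h
  obtain ⟨h1, _⟩ := permI_eq hg
  have h2 := act_ne_zero h1 (vC_ne_zero eis hv)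
  rw [act_mC eis, h] at h2
  apply h2
  simp [vC, toC]

theorem permI_ptI {g : QM} {v : QV} (hg : qdet (-1) 1 g ≠ (0, 0)) (hv : v ≠ ((0, 0), (0, 0))) :
    permI g (ptI v) = ptI (qact (-1) 1 g v) := by
  obtain ⟨h1, e1⟩ := permI_eq hg
  obtain ⟨h2, e2⟩ := ptI_eq hv
  obtain ⟨h3, e3⟩ := ptI_eq (qact_ne_zero hg hv)
  rw [e1, e2, e3, perm_mk]
  congr 1
  exact act_mC eis g v

/-- the test of a relation between the matrices -/
def relQ (mat : ℕ → QM) (i j k : ℕ) : Bool :=
  decide (qdet (-1) 1 (mat i) ≠ (0, 0)) && decide (qdet (-1) 1 (mat j) ≠ (0, 0)) &&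
    pmTest (-1) 1 (qmm (-1) 1 (mat i) (mat j)) (mat k)

theorem relQ_sound {mat : ℕ → QM} {i j k : ℕ} (h : relQ mat i j k = true) :
    permI (mat i) * permI (mat j) = permI (mat k) := by
  unfold relQ at h
  simp only [Bool.and_eq_true, decide_eq_true_eq] at h
  obtain ⟨⟨h1, h2⟩, h3⟩ := h
  obtain ⟨_, h5, r, hr, h6⟩ := pm_sound eis h3
  obtain ⟨g1, e1⟩ := permI_eq h1
  obtain ⟨g2, e2⟩ := permI_eq h2
  have e3 : permI (mat k) = perm _ h5 := by
    unfold permI
    rw [dif_pos h5]
  rw [e1, e2, e3]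
  refine perm_mul g1 g2 h5 hr ?_
  rw [mC_mul eis]
  exact h6

/-! ### The data -/

/-- the tables: number of vertices of one copy, number of boundary vertices (they come first),
letters of the edges, matrices of the letters, positions of the vertices -/
structure VData where
  nU : ℕ
  nB : ℕ
  lab : ℕ → ℕ → ℕ
  mat : ℕ → QM
  q : ℕ → QV

/-- the folding map -/
def VData.fold (X : VData) (w : ℕ) : ℕ := bif Nat.blt w X.nU then w else w - X.nU + X.nB

/-- the interior vertices of the second copy -/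
def VData.side (X : VData) (w : ℕ) : Bool := Nat.ble X.nU w

/-- the data of the double for helper69's construction -/
noncomputable def VData.D (X : VData) (n : ℕ) : DData PL ℕ (Fin n) VP where
  fold := fun w => X.fold w.val
  side := fun w => X.side w.val
  f := fun u u' => permI (X.mat (X.lab u u'))
  c := fun u => ptI (X.q u)
  q := fun u => ptI (X.q u)
  hf := fun _ _ _ _ _ _ => VP_permI _ _ _ _ _

/-- the vertices of a facet -/
def vl (t : ST ℕ) : List ℕ := [t.2.1, t.2.2.1, t.2.2.2.1, t.2.2.2.2]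

/-- the label of an edge takes the position of one end to the position of the other end -/
def VData.admT (X : VData) (u u' : ℕ) : Bool :=
  decide (qdet (-1) 1 (X.mat (X.lab u u')) ≠ (0, 0)) && decide (X.q u' ≠ ((0, 0), (0, 0))) &&
    pvTest (-1) 1 (qact (-1) 1 (X.mat (X.lab u u')) (X.q u')) (X.q u)

/-- the test of the boundary labels in a facet -/
def VData.chkAdm (X : VData) (t : ST ℕ) : Bool :=
  bif (vl t).any X.side then
    (vl t).all fun x => X.side x || (vl t).all fun y => X.side y || X.admT (X.fold x) (X.fold y)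
  else true

theorem VData.admT_sound (X : VData) {u u' : ℕ} (h : X.admT u u' = true) :
    permI (X.mat (X.lab u u')) (ptI (X.q u')) = ptI (X.q u) := by
  unfold VData.admT at h
  simp only [Bool.and_eq_true, decide_eq_true_eq] at h
  obtain ⟨⟨h1, h2⟩, h3⟩ := h
  obtain ⟨g1, g2, g3, _⟩ := pv_sound eis h3
  rw [permI_ptI h1 h2]
  have e1 : ptI (qact (-1) 1 (X.mat (X.lab u u')) (X.q u')) = Projectivization.mk ℂ _ g1 := by
    unfold ptI
    rw [dif_pos g1]
  have e2 : ptI (X.q u) = Projectivization.mk ℂ _ g2 := by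
    unfold ptI
    rw [dif_pos g2]
  rw [e1, e2]
  exact mk_eq_of_dt g1 g2 g3

/-- in a facet of the second copy the labels of the edges between boundary vertices take the
position of one end to the position of the other end -/
def VData.AdmP (X : VData) (t : ST ℕ) : Prop :=
  (∃ x ∈ vl t, X.side x = true) → ∀ x ∈ vl t, ∀ y ∈ vl t, X.side x = false → X.side y = false →
    permI (X.mat (X.lab (X.fold x) (X.fold y))) (ptI (X.q (X.fold y))) = ptI (X.q (X.fold x))

theorem VData.admP_of_chk {X : VData} {t : ST ℕ} (h : X.chkAdm t = true) : X.AdmP t := by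
  intro hs x hx y hy sx sy
  unfold VData.chkAdm at h
  have h1 : (vl t).any X.side = true := List.any_eq_true.2 hs
  rw [h1, cond_true, List.all_eq_true] at h
  have h4 := h _ hx
  rw [sx, Bool.false_or, List.all_eq_true] at h4
  have h5 := h4 _ hy
  rw [sy, Bool.false_or] at h5
  exact X.admT_sound h5

theorem VData.adm (X : VData) (n : ℕ) {t : ST ℕ} (h : X.AdmP t)
    (hs : ∃ x ∈ vl t, X.side x = true) {w w' : Fin n} (hw : w.val ∈ vl t) (hw' : w'.val ∈ vl t) :
    (X.D n).Adm w w' := by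
  intro h2
  have h3 : X.side w.val = false ∧ X.side w'.val = false := by
    have : (X.side w.val || X.side w'.val) = false := h2
    simpa using this
  exact h hs _ hw _ hw' h3.1 h3.2

/-- the value of a facet of the first copy in units of the volume of the regular simplex -/
def VData.fval (X : VData) (t : ST ℕ) : Option ℤ :=
  let a := X.fold t.2.1
  let b := X.fold t.2.2.1
  let c := X.fold t.2.2.2.1
  let d := X.fold t.2.2.2.2
  let m1 := X.mat (X.lab a b)
  let m2 := X.mat (X.lab a c)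
  let m3 := X.mat (X.lab a d)
  bif decide (qdet (-1) 1 m1 ≠ (0, 0)) && decide (qdet (-1) 1 m2 ≠ (0, 0)) &&
      decide (qdet (-1) 1 m3 ≠ (0, 0)) && decide (X.q a ≠ ((0, 0), (0, 0))) &&
      decide (X.q b ≠ ((0, 0), (0, 0))) && decide (X.q c ≠ ((0, 0), (0, 0))) &&
      decide (X.q d ≠ ((0, 0), (0, 0))) then
    vcode (X.q a) (qact (-1) 1 m1 (X.q b)) (qact (-1) 1 m2 (X.q c)) (qact (-1) 1 m3 (X.q d))
  else none

theorem VData.fval_sound (X : VData) {t : ST ℕ} {m : ℤ} (h : X.fval t = some m) :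
    VP (ptI (X.q (X.fold t.2.1)))
      (permI (X.mat (X.lab (X.fold t.2.1) (X.fold t.2.2.1))) (ptI (X.q (X.fold t.2.2.1))))
      (permI (X.mat (X.lab (X.fold t.2.1) (X.fold t.2.2.2.1))) (ptI (X.q (X.fold t.2.2.2.1))))
      (permI (X.mat (X.lab (X.fold t.2.1) (X.fold t.2.2.2.2))) (ptI (X.q (X.fold t.2.2.2.2))))
      = m * V0 := by
  unfold VData.fval at h
  rcases hb : (decide (qdet (-1) 1 (X.mat (X.lab (X.fold t.2.1) (X.fold t.2.2.1))) ≠ (0, 0)) &&
      decide (qdet (-1) 1 (X.mat (X.lab (X.fold t.2.1) (X.fold t.2.2.2.1))) ≠ (0, 0)) &&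
      decide (qdet (-1) 1 (X.mat (X.lab (X.fold t.2.1) (X.fold t.2.2.2.2))) ≠ (0, 0)) &&
      decide (X.q (X.fold t.2.1) ≠ ((0, 0), (0, 0))) &&
      decide (X.q (X.fold t.2.2.1) ≠ ((0, 0), (0, 0))) &&
      decide (X.q (X.fold t.2.2.2.1) ≠ ((0, 0), (0, 0))) &&
      decide (X.q (X.fold t.2.2.2.2) ≠ ((0, 0), (0, 0)))) with _ | _
  · simp only [hb, cond_false] at h
    exact absurd h (by simp)
  · simp only [hb, cond_true] at h
    simp only [Bool.and_eq_true, decide_eq_true_eq] at hb
    obtain ⟨⟨⟨⟨⟨⟨d1, d2⟩, d3⟩, v0⟩, v1⟩, v2⟩, v3⟩ := hb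
    rw [permI_ptI d1 v1, permI_ptI d2 v2, permI_ptI d3 v3]
    obtain ⟨g0, e0⟩ := ptI_eq v0
    obtain ⟨g1, e1⟩ := ptI_eq (qact_ne_zero d1 v1)
    obtain ⟨g2, e2⟩ := ptI_eq (qact_ne_zero d2 v2)
    obtain ⟨g3, e3⟩ := ptI_eq (qact_ne_zero d3 v3)
    rw [e0, e1, e2, e3, VP_mk]
    exact vcode_sound h

/-- the check of the values, with the numbers of positive and negative regular simplices -/
def VData.chkVal (X : VData) : List (ST ℕ) → ℕ → ℕ → Bool
  | [], p, m => Nat.beq p 0 && Nat.beq m 0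
  | t :: T, p, m =>
    bif (vl t).any X.side then X.chkVal T p m
    else match X.fval t with
      | some (Int.ofNat 0) => X.chkVal T p m
      | some (Int.ofNat 1) =>
        bif t.1 then (match p with | 0 => false | p + 1 => X.chkVal T p m)
        else (match m with | 0 => false | m + 1 => X.chkVal T p m)
      | some (Int.negSucc 0) =>
        bif t.1 then (match m with | 0 => false | m + 1 => X.chkVal T p m)
        else (match p with | 0 => false | p + 1 => X.chkVal T p m)
      | _ => false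

theorem VData.g_mul (X : VData) (n : ℕ) {rel : ℕ → ℕ → ℕ → Bool}
    (hrel : ∀ i j k, rel i j k = true → permI (X.mat i) * permI (X.mat j) = permI (X.mat k))
    {t : ST ℕ} (h : chkRel rel X.lab ((vl t).map X.fold) = true) (ha : X.AdmP t)
    {w w' w'' : Fin n} (hw : w.val ∈ vl t) (hw' : w'.val ∈ vl t) (hw'' : w''.val ∈ vl t) :
    (X.D n).g w w' * (X.D n).g w' w'' = (X.D n).g w w'' := by
  have h1 := coc_of_chkRel (fun i => permI (X.mat i)) hrel h (X.fold w.val)
    (List.mem_map_of_mem hw) (X.fold w'.val) (List.mem_map_of_mem hw') (X.fold w''.val)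
    (List.mem_map_of_mem hw'')
  refine (X.D n).g_mul h1 fun hs => ?_
  have hs' : ∃ x ∈ vl t, X.side x = true := by
    have h2 : (X.side w.val || X.side w'.val || X.side w''.val) = true := hs
    simp only [Bool.or_eq_true] at h2
    rcases h2 with (h2 | h2) | h2
    · exact ⟨_, hw, h2⟩
    · exact ⟨_, hw', h2⟩
    · exact ⟨_, hw'', h2⟩
  exact ⟨X.adm n ha hs' hw hw', X.adm n ha hs' hw' hw'', X.adm n ha hs' hw hw''⟩

/-- the summand of a facet in the main assembly -/
noncomputable def VData.sm (X : VData) (n : ℕ) (t : ST (Fin n)) : ℝ :=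
  (Pool.CX.sg t.1 : ℝ) *
    (X.D n).F (Pool.CX.tupT t 0, (X.D n).g (Pool.CX.tupT t 0) (Pool.CX.tupT t 0))
      (Pool.CX.tupT t 1, (X.D n).g (Pool.CX.tupT t 0) (Pool.CX.tupT t 1))
      (Pool.CX.tupT t 2, (X.D n).g (Pool.CX.tupT t 0) (Pool.CX.tupT t 2))
      (Pool.CX.tupT t 3, (X.D n).g (Pool.CX.tupT t 0) (Pool.CX.tupT t 3))

/-- the conditions on one facet -/
structure VData.Ok (X : VData) (n : ℕ) (t : ST ℕ) : Prop where
  lt : ∀ x ∈ vl t, x < n
  coc : ∀ x ∈ vl t, ∀ y ∈ vl t, ∀ z ∈ vl t,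
    permI (X.mat (X.lab (X.fold x) (X.fold y))) * permI (X.mat (X.lab (X.fold y) (X.fold z))) =
      permI (X.mat (X.lab (X.fold x) (X.fold z)))
  adm : X.AdmP t

theorem VData.Ok.g_mul {X : VData} {n : ℕ} {t : ST ℕ} (h : X.Ok n t)
    {w w' w'' : Fin n} (hw : w.val ∈ vl t) (hw' : w'.val ∈ vl t) (hw'' : w''.val ∈ vl t) :
    (X.D n).g w w' * (X.D n).g w' w'' = (X.D n).g w w'' := by
  refine (X.D n).g_mul (h.coc _ hw _ hw' _ hw'') fun hs => ?_
  have hs' : ∃ x ∈ vl t, X.side x = true := by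
    have h2 : (X.side w.val || X.side w'.val || X.side w''.val) = true := hs
    simp only [Bool.or_eq_true] at h2
    rcases h2 with (h2 | h2) | h2
    · exact ⟨_, hw, h2⟩
    · exact ⟨_, hw', h2⟩
    · exact ⟨_, hw'', h2⟩
  exact ⟨X.adm n h.adm hs' hw hw', X.adm n h.adm hs' hw' hw'', X.adm n h.adm hs' hw hw''⟩

theorem VData.Ok.g_self {X : VData} {n : ℕ} {t : ST ℕ} (h : X.Ok n t)
    {w : Fin n} (hw : w.val ∈ vl t) : (X.D n).g w w = 1 :=
  mul_eq_left.1 (h.g_mul hw hw hw)

theorem tupT_zero {α : Type*} (t : ST α) : Pool.CX.tupT t 0 = t.2.1 := rfl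
theorem tupT_one {α : Type*} (t : ST α) : Pool.CX.tupT t 1 = t.2.2.1 := rfl
theorem tupT_two {α : Type*} (t : ST α) : Pool.CX.tupT t 2 = t.2.2.2.1 := rfl
theorem tupT_three {α : Type*} (t : ST α) : Pool.CX.tupT t 3 = t.2.2.2.2 := rfl

theorem val_ofNat {n : ℕ} [NeZero n] {x : ℕ} (h : x < n) : (Fin.ofNat n x).val = x := by
  rw [Fin.val_ofNat, Nat.mod_eq_of_lt h]

theorem VData.Ok.sm_second {X : VData} {n : ℕ} [NeZero n] {t : ST ℕ} (h : X.Ok n t)
    (hs : (vl t).any X.side = true) : X.sm n (mapST (Fin.ofNat n) t) = 0 := by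
  have hs' : ∃ x ∈ vl t, X.side x = true := List.any_eq_true.1 hs
  have m0 : t.2.1 ∈ vl t := by simp [vl]
  have m1 : t.2.2.1 ∈ vl t := by simp [vl]
  have m2 : t.2.2.2.1 ∈ vl t := by simp [vl]
  have m3 : t.2.2.2.2 ∈ vl t := by simp [vl]
  have v0 := val_ofNat (h.lt _ m0)
  have v1 := val_ofNat (h.lt _ m1)
  have v2 := val_ofNat (h.lt _ m2)
  have v3 := val_ofNat (h.lt _ m3)
  have n0 : (Fin.ofNat n t.2.1).val ∈ vl t := by rw [v0]; exact m0
  have n1 : (Fin.ofNat n t.2.2.1).val ∈ vl t := by rw [v1]; exact m1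
  have n2 : (Fin.ofNat n t.2.2.2.1).val ∈ vl t := by rw [v2]; exact m2
  have n3 : (Fin.ofNat n t.2.2.2.2).val ∈ vl t := by rw [v3]; exact m3
  unfold VData.sm
  rw [tupT_zero, tupT_one, tupT_two, tupT_three]
  change _ * (X.D n).F (Fin.ofNat n t.2.1, (X.D n).g (Fin.ofNat n t.2.1) (Fin.ofNat n t.2.1))
    (Fin.ofNat n t.2.2.1, (X.D n).g (Fin.ofNat n t.2.1) (Fin.ofNat n t.2.2.1))
    (Fin.ofNat n t.2.2.2.1, (X.D n).g (Fin.ofNat n t.2.1) (Fin.ofNat n t.2.2.2.1))
    (Fin.ofNat n t.2.2.2.2, (X.D n).g (Fin.ofNat n t.2.1) (Fin.ofNat n t.2.2.2.2)) = 0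
  rw [h.g_self n0, (X.D n).F_second VP_zero (fun _ => rfl)
    ⟨fun _ => rfl, X.adm n h.adm hs' n0 n1⟩ ⟨fun _ => rfl, X.adm n h.adm hs' n0 n2⟩
    ⟨fun _ => rfl, X.adm n h.adm hs' n0 n3⟩, mul_zero]

theorem VData.Ok.sm_first {X : VData} {n : ℕ} [NeZero n] {t : ST ℕ} (h : X.Ok n t)
    (hs : (vl t).any X.side = false) {m : ℤ} (hm : X.fval t = some m) :
    X.sm n (mapST (Fin.ofNat n) t) = (Pool.CX.sg t.1 : ℝ) * (m * V0) := by
  have hs' : ∀ x ∈ vl t, X.side x = false := by
    intro x hx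
    by_contra hc
    rw [Bool.not_eq_false] at hc
    have := List.any_eq_true.2 ⟨x, hx, hc⟩
    rw [hs] at this
    exact absurd this (by simp)
  have m0 : t.2.1 ∈ vl t := by simp [vl]
  have m1 : t.2.2.1 ∈ vl t := by simp [vl]
  have m2 : t.2.2.2.1 ∈ vl t := by simp [vl]
  have m3 : t.2.2.2.2 ∈ vl t := by simp [vl]
  have v0 := val_ofNat (h.lt _ m0)
  have v1 := val_ofNat (h.lt _ m1)
  have v2 := val_ofNat (h.lt _ m2)
  have v3 := val_ofNat (h.lt _ m3)
  have n0 : (Fin.ofNat n t.2.1).val ∈ vl t := by rw [v0]; exact m0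
  unfold VData.sm
  rw [tupT_zero, tupT_one, tupT_two, tupT_three]
  change _ * (X.D n).F (Fin.ofNat n t.2.1, (X.D n).g (Fin.ofNat n t.2.1) (Fin.ofNat n t.2.1))
    (Fin.ofNat n t.2.2.1, (X.D n).g (Fin.ofNat n t.2.1) (Fin.ofNat n t.2.2.1))
    (Fin.ofNat n t.2.2.2.1, (X.D n).g (Fin.ofNat n t.2.1) (Fin.ofNat n t.2.2.2.1))
    (Fin.ofNat n t.2.2.2.2, (X.D n).g (Fin.ofNat n t.2.1) (Fin.ofNat n t.2.2.2.2)) = _
  have s0 : (X.D n).side (Fin.ofNat n t.2.1) = false := by
    change X.side (Fin.ofNat n t.2.1).val = false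
    rw [v0]
    exact hs' _ m0
  have s1 : (X.D n).side (Fin.ofNat n t.2.2.1) = false := by
    change X.side (Fin.ofNat n t.2.2.1).val = false
    rw [v1]
    exact hs' _ m1
  have s2 : (X.D n).side (Fin.ofNat n t.2.2.2.1) = false := by
    change X.side (Fin.ofNat n t.2.2.2.1).val = false
    rw [v2]
    exact hs' _ m2
  have s3 : (X.D n).side (Fin.ofNat n t.2.2.2.2) = false := by
    change X.side (Fin.ofNat n t.2.2.2.2).val = false
    rw [v3]
    exact hs' _ m3
  rw [h.g_self n0, (X.D n).F_first VP_zero s0 s1 s2 s3]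
  change (Pool.CX.sg t.1 : ℝ) * VP (ptI (X.q (X.fold (Fin.ofNat n t.2.1).val)))
      (permI (X.mat (X.lab (X.fold (Fin.ofNat n t.2.1).val) (X.fold (Fin.ofNat n t.2.2.1).val)))
        (ptI (X.q (X.fold (Fin.ofNat n t.2.2.1).val))))
      (permI (X.mat (X.lab (X.fold (Fin.ofNat n t.2.1).val) (X.fold (Fin.ofNat n t.2.2.2.1).val)))
        (ptI (X.q (X.fold (Fin.ofNat n t.2.2.2.1).val))))
      (permI (X.mat (X.lab (X.fold (Fin.ofNat n t.2.1).val) (X.fold (Fin.ofNat n t.2.2.2.2).val)))
        (ptI (X.q (X.fold (Fin.ofNat n t.2.2.2.2).val)))) = _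
  rw [v0, v1, v2, v3, X.fval_sound hm]

/-- **Soundness of the check of the values.** -/
theorem VData.chkVal_sound (X : VData) (n : ℕ) [NeZero n] :
    ∀ (T : List (ST ℕ)) (p m : ℕ), (∀ t ∈ T, X.Ok n t) → X.chkVal T p m = true →
      ((TF n T).map (X.sm n)).sum = ((p : ℝ) - m) * V0
  | [], p, m => by
    intro _ h
    unfold VData.chkVal at h
    simp only [Bool.and_eq_true] at h
    rw [Nat.eq_of_beq_eq_true h.1, Nat.eq_of_beq_eq_true h.2]
    simp [TF]
  | t :: T, p, m => by
    intro hok h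
    have hok' : ∀ s ∈ T, X.Ok n s := fun s hs => hok s (List.mem_cons_of_mem _ hs)
    have hot := hok t List.mem_cons_self
    have hsum : ((TF n (t :: T)).map (X.sm n)).sum =
        X.sm n (mapST (Fin.ofNat n) t) + ((TF n T).map (X.sm n)).sum := by
      simp [TF]
    rw [hsum]
    rw [VData.chkVal.eq_def] at h
    dsimp only at h
    rcases hs : (vl t).any X.side with _ | _
    · rw [hs, cond_false] at h
      split at h
      · next hv =>
        rw [hot.sm_first hs hv, X.chkVal_sound n T p m hok' h]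
        simp
      · next hv =>
        have h1 : X.sm n (mapST (Fin.ofNat n) t) = (Pool.CX.sg t.1 : ℝ) * V0 := by
          rw [hot.sm_first hs hv]
          simp
        rcases hb : t.1 with _ | _
        · rw [hb, cond_false] at h
          rcases m with _ | m
          · exact absurd h (by simp)
          · rw [h1, X.chkVal_sound n T p m hok' h, hb]
            simp only [Pool.CX.sg]
            push_cast
            simp
            ring
        · rw [hb, cond_true] at h
          rcases p with _ | p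
          · exact absurd h (by simp)
          · rw [h1, X.chkVal_sound n T p m hok' h, hb]
            simp only [Pool.CX.sg]
            push_cast
            simp
            ring
      · next hv =>
        have h1 : X.sm n (mapST (Fin.ofNat n) t) = -((Pool.CX.sg t.1 : ℝ) * V0) := by
          rw [hot.sm_first hs hv]
          simp
        rcases hb : t.1 with _ | _
        · rw [hb, cond_false] at h
          rcases p with _ | p
          · exact absurd h (by simp)
          · rw [h1, X.chkVal_sound n T p m hok' h, hb]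
            simp only [Pool.CX.sg]
            push_cast
            simp
            ring
        · rw [hb, cond_true] at h
          rcases m with _ | m
          · exact absurd h (by simp)
          · rw [h1, X.chkVal_sound n T p m hok' h, hb]
            simp only [Pool.CX.sg]
            push_cast
            simp
            ring
      · exact absurd h (by simp)
    · rw [hs, cond_true] at h
      rw [hot.sm_second hs, X.chkVal_sound n T p m hok' h, zero_add]

theorem TF_append {n : ℕ} [NeZero n] (T T' : List (ST ℕ)) : TF n (T ++ T') = TF n T ++ TF n T' :=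
  List.map_append

/-- **Item (5), part 1**: the cocycle condition in the form of the main assembly. -/
theorem VData.hg (X : VData) (n : ℕ) [NeZero n] {T : List (ST ℕ)} (hok : ∀ t ∈ T, X.Ok n t) :
    ∀ t ∈ TF n T, ∀ i ∈ Pool.CX.setT t, ∀ j ∈ Pool.CX.setT t, ∀ k ∈ Pool.CX.setT t,
      (X.D n).g i j * (X.D n).g j k = (X.D n).g i k := by
  intro t ht i hi j hj k hk
  obtain ⟨s, hs, rfl⟩ := List.mem_map.1 ht
  have h := hok s hs
  have key : ∀ i ∈ Pool.CX.setT (mapST (Fin.ofNat n) s), i.val ∈ vl s := by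
    intro i hi
    simp only [Pool.CX.setT, mapST, Finset.mem_insert, Finset.mem_singleton] at hi
    rcases hi with rfl | rfl | rfl | rfl
    · rw [val_ofNat (h.lt _ (by simp [vl]))]
      simp [vl]
    · rw [val_ofNat (h.lt _ (by simp [vl]))]
      simp [vl]
    · rw [val_ofNat (h.lt _ (by simp [vl]))]
      simp [vl]
    · rw [val_ofNat (h.lt _ (by simp [vl]))]
      simp [vl]
  exact h.g_mul (key i hi) (key j hj) (key k hk)

/-- **Item (5), part 2**: the value in the form of the main assembly. -/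
theorem VData.hval (X : VData) (n : ℕ) [NeZero n] {T : List (ST ℕ)} (hok : ∀ t ∈ T, X.Ok n t)
    {p m : ℕ} (h : X.chkVal T p m = true) (hpm : p ≠ m) :
    ((TF n T).map (fun t => (Pool.CX.sg t.1 : ℝ) *
      (X.D n).F (Pool.CX.tupT t 0, (X.D n).g (Pool.CX.tupT t 0) (Pool.CX.tupT t 0))
        (Pool.CX.tupT t 1, (X.D n).g (Pool.CX.tupT t 0) (Pool.CX.tupT t 1))
        (Pool.CX.tupT t 2, (X.D n).g (Pool.CX.tupT t 0) (Pool.CX.tupT t 2))
        (Pool.CX.tupT t 3, (X.D n).g (Pool.CX.tupT t 0) (Pool.CX.tupT t 3)))).sum ≠ 0 := by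
  have h1 := X.chkVal_sound n T p m hok h
  have h2 : ((p : ℝ) - m) * V0 ≠ 0 :=
    mul_ne_zero (sub_ne_zero.2 (by exact_mod_cast hpm)) V0_pos.ne'
  rw [← h1] at h2
  exact h2

/-! ### Boolean checks -/

/-- the code of a relation -/
def codeR (k i j l : ℕ) : ℕ := (i * k + j) * k + l

/-- the set of the relations as a bit mask -/
def maskOf (k : ℕ) (rels : List (ℕ × ℕ × ℕ)) : ℕ :=
  rels.foldl (fun m r => m ||| (1 <<< codeR k r.1 r.2.1 r.2.2)) 0

/-- membership in the set of the relations -/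
def relM (k mask i j l : ℕ) : Bool :=
  Nat.blt i k && Nat.blt j k && Nat.blt l k && mask.testBit (codeR k i j l)

/-- the letters in the relations are smaller than `k` -/
def chkRels (k : ℕ) (rels : List (ℕ × ℕ × ℕ)) : Bool :=
  rels.all fun r => Nat.blt r.1 k && Nat.blt r.2.1 k && Nat.blt r.2.2 k

theorem codeR_inj {k i j l i' j' l' : ℕ} (hj : j < k) (hl : l < k) (hj' : j' < k) (hl' : l' < k)
    (h : codeR k i j l = codeR k i' j' l') : i = i' ∧ j = j' ∧ l = l' := by
  unfold codeR at h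
  have hk : 0 < k := by omega
  have e1 : ((i * k + j) * k + l) / k = i * k + j := by
    rw [Nat.add_comm, Nat.add_mul_div_right _ _ hk, Nat.div_eq_of_lt hl, Nat.zero_add]
  have e1' : ((i' * k + j') * k + l') / k = i' * k + j' := by
    rw [Nat.add_comm, Nat.add_mul_div_right _ _ hk, Nat.div_eq_of_lt hl', Nat.zero_add]
  have e2 : i * k + j = i' * k + j' := by rw [← e1, ← e1', h]
  have e3 : l = l' := by
    rw [e2] at h
    omega
  have e4 : (i * k + j) / k = i := by
    rw [Nat.add_comm, Nat.add_mul_div_right _ _ hk, Nat.div_eq_of_lt hj, Nat.zero_add]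
  have e4' : (i' * k + j') / k = i' := by
    rw [Nat.add_comm, Nat.add_mul_div_right _ _ hk, Nat.div_eq_of_lt hj', Nat.zero_add]
  have e5 : i = i' := by rw [← e4, ← e4', e2]
  refine ⟨e5, ?_, e3⟩
  rw [e5] at e2
  omega

theorem maskOf_aux (k c : ℕ) : ∀ (rels : List (ℕ × ℕ × ℕ)) (m : ℕ),
    (rels.foldl (fun m r => m ||| (1 <<< codeR k r.1 r.2.1 r.2.2)) m).testBit c = true →
      m.testBit c = true ∨ ∃ r ∈ rels, c = codeR k r.1 r.2.1 r.2.2
  | [], m, h => Or.inl h
  | r :: rels, m, h => by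
    rw [List.foldl_cons] at h
    rcases maskOf_aux k c rels _ h with h2 | ⟨r', hr', h2⟩
    · simp only [Nat.testBit_or, Nat.one_shiftLeft, Nat.testBit_two_pow, Bool.or_eq_true,
        decide_eq_true_eq] at h2
      rcases h2 with h2 | h2
      · exact Or.inl h2
      · exact Or.inr ⟨r, List.mem_cons_self, h2.symm⟩
    · exact Or.inr ⟨r', List.mem_cons_of_mem _ hr', h2⟩

/-- the mask contains only the relations of the list -/
theorem relM_sound {k mask : ℕ} {rels : List (ℕ × ℕ × ℕ)} (hk : chkRels k rels = true)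
    (hm : Nat.beq mask (maskOf k rels) = true) {i j l : ℕ} (h : relM k mask i j l = true) :
    (i, j, l) ∈ rels := by
  unfold relM at h
  simp only [Bool.and_eq_true, Nat.blt_eq] at h
  obtain ⟨⟨⟨h1, h2⟩, h3⟩, h4⟩ := h
  rw [Nat.eq_of_beq_eq_true hm] at h4
  rcases maskOf_aux k _ rels 0 h4 with h5 | ⟨r, hr, h5⟩
  · simp at h5
  · unfold chkRels at hk
    rw [List.all_eq_true] at hk
    have h6 := hk r hr
    simp only [Bool.and_eq_true, Nat.blt_eq] at h6
    obtain ⟨e1, e2, e3⟩ := codeR_inj h2 h3 h6.1.2 h6.2 h5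
    rw [e1, e2, e3]
    exact hr

/-- the matrices satisfy the relations -/
def VData.chkMat (X : VData) (rels : List (ℕ × ℕ × ℕ)) : Bool :=
  rels.all fun r => relQ X.mat r.1 r.2.1 r.2.2

/-- the test of a facet -/
def VData.chkOk (X : VData) (k mask : ℕ) (t : ST ℕ) : Bool :=
  chkRel (relM k mask) X.lab ((vl t).map X.fold) && X.chkAdm t

/-- **The checks give the conditions on the facets.** -/
theorem VData.ok_of_chk (X : VData) {n k mask : ℕ} {rels : List (ℕ × ℕ × ℕ)}
    (hk : chkRels k rels = true) (hm : Nat.beq mask (maskOf k rels) = true)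
    (hM : X.chkMat rels = true) {T : List (ST ℕ)} (hI : chkIncr n T = true)
    (h : T.all (X.chkOk k mask) = true) : ∀ t ∈ T, X.Ok n t := by
  intro t ht
  rw [List.all_eq_true] at h
  have h1 := h t ht
  unfold VData.chkOk at h1
  simp only [Bool.and_eq_true] at h1
  have hrel : ∀ i j l, relM k mask i j l = true →
      permI (X.mat i) * permI (X.mat j) = permI (X.mat l) := by
    intro i j l hl
    have h2 := relM_sound hk hm hl
    unfold VData.chkMat at hM
    rw [List.all_eq_true] at hM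
    exact relQ_sound (hM _ h2)
  have hc := coc_of_chkRel (fun i => permI (X.mat i)) hrel h1.1
  obtain ⟨h2, h3, h4, h5⟩ := chkIncr_spec hI t ht
  refine ⟨?_, ?_, VData.admP_of_chk h1.2⟩
  · intro x hx
    simp only [vl, List.mem_cons, List.not_mem_nil, or_false] at hx
    rcases hx with rfl | rfl | rfl | rfl <;> omega
  · intro x hx y hy z hz
    exact hc _ (List.mem_map_of_mem hx) _ (List.mem_map_of_mem hy) _ (List.mem_map_of_mem hz)

/-! ### Splitting of the value check -/

theorem VData.sum_chunks (X : VData) (n : ℕ) [NeZero n] (C : List (List (ST ℕ) × ℕ × ℕ))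
    (hok : ∀ c ∈ C, ∀ t ∈ c.1, X.Ok n t)
    (h : ∀ c ∈ C, X.chkVal c.1 c.2.1 c.2.2 = true) :
    ((TF n (C.map (fun c => c.1)).flatten).map (X.sm n)).sum =
      ((((C.map (fun c => c.2.1)).sum : ℕ) : ℝ) - (((C.map (fun c => c.2.2)).sum : ℕ) : ℝ)) *
        V0 := by
  induction C with
  | nil => simp [TF]
  | cons c C ih =>
    have h0 := X.chkVal_sound n c.1 c.2.1 c.2.2 (hok c List.mem_cons_self)
      (h c List.mem_cons_self)
    have h1 := ih (fun c hc => hok c (List.mem_cons_of_mem _ hc))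
      (fun c hc => h c (List.mem_cons_of_mem _ hc))
    simp only [List.map_cons, List.flatten_cons, TF_append, List.map_append, List.sum_append,
      List.sum_cons, Nat.cast_add]
    rw [h0, h1]
    ring

/-- the value of a list of facets given in chunks -/
theorem VData.hval_chunks (X : VData) (n : ℕ) [NeZero n] (C : List (List (ST ℕ) × ℕ × ℕ))
    (hok : ∀ c ∈ C, ∀ t ∈ c.1, X.Ok n t)
    (h : ∀ c ∈ C, X.chkVal c.1 c.2.1 c.2.2 = true)
    (hpm : (C.map (fun c => c.2.1)).sum ≠ (C.map (fun c => c.2.2)).sum) :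
    ((TF n (C.map (fun c => c.1)).flatten).map (fun t => (Pool.CX.sg t.1 : ℝ) *
      (X.D n).F (Pool.CX.tupT t 0, (X.D n).g (Pool.CX.tupT t 0) (Pool.CX.tupT t 0))
        (Pool.CX.tupT t 1, (X.D n).g (Pool.CX.tupT t 0) (Pool.CX.tupT t 1))
        (Pool.CX.tupT t 2, (X.D n).g (Pool.CX.tupT t 0) (Pool.CX.tupT t 2))
        (Pool.CX.tupT t 3, (X.D n).g (Pool.CX.tupT t 0) (Pool.CX.tupT t 3)))).sum ≠ 0 := by
  have h1 := X.sum_chunks n C hok h
  have h2 : ((((C.map (fun c => c.2.1)).sum : ℕ) : ℝ) -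
      (((C.map (fun c => c.2.2)).sum : ℕ) : ℝ)) * V0 ≠ 0 :=
    mul_ne_zero (sub_ne_zero.2 (by exact_mod_cast hpm)) V0_pos.ne'
  rw [← h1] at h2
  exact h2
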