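import Pool.Agent.Helper26.PM.Val
import Pool.Agent.Helper93.CX.LabW

set_option autoImplicit false

/-!
MP_f22a19_gt, project CX, item (5): the projective labels from the tables of the affine labels
(`labP`, `RT`, `chkLabW` of helper93) and the tables `mat` and `q` of Eisenstein integers.
-/

namespace Pool.Agent.Helper26.PM

open Pool.Agent.Helper68.BW hiding act
open Helper69.CX Pool.CX

/-- the identity matrix -/
def idQM : QM := (((1, 0), (0, 0)), ((0, 0), (1, 0)))

theorem permI_id : permI idQM = 1 := by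
  have h : permI idQM * permI idQM = permI idQM :=
    relQ_sound (mat := fun _ => idQM) (i := 0) (j := 0) (k := 0) (by decide)
  exact mul_eq_left.1 h

/-- the cocycle condition in a facet from the test of helper93, for any group -/
theorem coc_of_cocOK {G : Type*} [Group G] (A : ℕ → G) (h0 : A 0 = 1) {lab : ℕ → ℕ → ℕ}
    {rel : ℕ → ℕ → ℕ → Bool} (hlab : ∀ u, lab u u = 0)
    (hrel : ∀ i j l, rel i j l = true → A i * A j = A l) {a b c d : ℕ}
    (h : cocOK lab rel a b c d = true) {x y z : ℕ} (hx : x ∈ [a, b, c, d])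
    (hy : y ∈ [a, b, c, d]) (hz : z ∈ [a, b, c, d]) :
    A (lab x y) * A (lab y z) = A (lab x z) := by
  simp only [cocOK, Bool.and_eq_true] at h
  obtain ⟨⟨⟨⟨⟨⟨⟨⟨hab, hac⟩, had⟩, habc⟩, habd⟩, hacb⟩, hacd⟩, hadb⟩, hadc⟩ := h
  have hs : ∀ u, A (lab u u) = 1 := fun u => by rw [hlab, h0]
  have key : ∀ x ∈ [a, b, c, d], ∀ y ∈ [a, b, c, d],
      A (lab a x) * A (lab x y) = A (lab a y) := by
    intro x hx y hy
    simp only [List.mem_cons, List.not_mem_nil, or_false] at hx hy
    rcases hx with rfl | rfl | rfl | rfl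
    · rw [hs, one_mul]
    · rcases hy with rfl | rfl | rfl | rfl
      · rw [hs, hrel _ _ _ hab, h0]
      · rw [hs, mul_one]
      · exact hrel _ _ _ habc
      · exact hrel _ _ _ habd
    · rcases hy with rfl | rfl | rfl | rfl
      · rw [hs, hrel _ _ _ hac, h0]
      · exact hrel _ _ _ hacb
      · rw [hs, mul_one]
      · exact hrel _ _ _ hacd
    · rcases hy with rfl | rfl | rfl | rfl
      · rw [hs, hrel _ _ _ had, h0]
      · exact hrel _ _ _ hadb
      · exact hrel _ _ _ hadc
      · rw [hs, mul_one]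
  exact mul_of_base (r := fun u u' => A (lab u u')) key hx hy hz

theorem VData.fold_eq (X : VData) (w : ℕ) : X.fold w = foldN X.nU X.nB w := rfl

/-- **The conditions on the facets** from the test of the affine labels, the relations of the
matrices and the test of the boundary labels. -/
theorem VData.ok_of_lab (X : VData) {n : ℕ} {t : RT} {bd : ℕ → Bool} {T : List (ST ℕ)}
    (h0 : X.mat 0 = idQM) (hlab : ∀ u, X.lab u u = 0) (hM : X.chkMat t.toList = true)
    (h : chkLabW n X.nU X.nB X.lab t.has bd T = true) (ha : T.all X.chkAdm = true) :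
    ∀ s ∈ T, X.Ok n s := by
  intro s hs
  have h1 := List.all_eq_true.1 h _ hs
  simp only [facetW, Bool.and_eq_true, Nat.blt_eq] at h1
  obtain ⟨⟨⟨⟨⟨ha1, hb1⟩, hc1⟩, hd1⟩, h2⟩, h3⟩ := h1
  simp only [facetOK, Bool.and_eq_true] at h3
  have hrel : ∀ i j l, t.has i j l = true →
      permI (X.mat i) * permI (X.mat j) = permI (X.mat l) := by
    intro i j l hl
    have h4 := RT.has_sound t hl
    unfold VData.chkMat at hM
    exact relQ_sound (List.all_eq_true.1 hM _ h4)
  have hc := fun x y z hx hy hz => coc_of_cocOK (fun i => permI (X.mat i))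
    (by rw [h0]; exact permI_id) hlab hrel h3.1.1.1.1.1.1 (x := x) (y := y) (z := z) hx hy hz
  refine ⟨?_, ?_, VData.admP_of_chk (List.all_eq_true.1 ha _ hs)⟩
  · intro x hx
    simp only [vl, List.mem_cons, List.not_mem_nil, or_false] at hx
    rcases hx with rfl | rfl | rfl | rfl <;> assumption
  · intro x hx y hy z hz
    exact hc _ _ _ (List.mem_map_of_mem (f := X.fold) hx) (List.mem_map_of_mem (f := X.fold) hy)
      (List.mem_map_of_mem (f := X.fold) hz)

/-! ### Faster tests: nonzero determinants and positions are tested once -/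

/-- all positions are nonzero vectors -/
def VData.chkQ (X : VData) : Bool :=
  (List.range X.nU).all fun u => decide (X.q u ≠ ((0, 0), (0, 0)))

/-- the label of an edge takes the position of one end to the position of the other end -/
def VData.admP (X : VData) (u u' : ℕ) : Bool :=
  decide (qdt (-1) 1 (qact (-1) 1 (X.mat (X.lab u u')) (X.q u')) (X.q u) = (0, 0))

/-- the test of a pair of vertices of a facet of the second copy -/
def VData.admE (X : VData) (x y : ℕ) : Bool :=
  X.side x || X.side y || X.admP (X.fold x) (X.fold y)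

/-- the test of the boundary labels in a facet -/
def VData.admF (X : VData) (t : ST ℕ) : Bool :=
  bif X.side t.2.1 || X.side t.2.2.1 || X.side t.2.2.2.1 || X.side t.2.2.2.2 then
    X.admE t.2.1 t.2.2.1 && X.admE t.2.1 t.2.2.2.1 && X.admE t.2.1 t.2.2.2.2 &&
      X.admE t.2.2.1 t.2.2.2.1 && X.admE t.2.2.1 t.2.2.2.2 && X.admE t.2.2.2.1 t.2.2.2.2
  else true

/-- the value of a facet of the first copy in units of the volume of the regular simplex -/
def VData.fvalF (X : VData) (t : ST ℕ) : Option ℤ :=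
  vcode (X.q (X.fold t.2.1))
    (qact (-1) 1 (X.mat (X.lab (X.fold t.2.1) (X.fold t.2.2.1))) (X.q (X.fold t.2.2.1)))
    (qact (-1) 1 (X.mat (X.lab (X.fold t.2.1) (X.fold t.2.2.2.1))) (X.q (X.fold t.2.2.2.1)))
    (qact (-1) 1 (X.mat (X.lab (X.fold t.2.1) (X.fold t.2.2.2.2))) (X.q (X.fold t.2.2.2.2)))

/-- the check of the values, with the numbers of positive and negative regular simplices -/
def VData.chkValF (X : VData) : List (ST ℕ) → ℕ → ℕ → Bool
  | [], p, m => Nat.beq p 0 && Nat.beq m 0
  | t :: T, p, m =>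
    bif X.side t.2.1 || X.side t.2.2.1 || X.side t.2.2.2.1 || X.side t.2.2.2.2 then
      X.chkValF T p m
    else match X.fvalF t with
      | some (Int.ofNat 0) => X.chkValF T p m
      | some (Int.ofNat 1) =>
        bif t.1 then (match p with | 0 => false | p + 1 => X.chkValF T p m)
        else (match m with | 0 => false | m + 1 => X.chkValF T p m)
      | some (Int.negSucc 0) =>
        bif t.1 then (match m with | 0 => false | m + 1 => X.chkValF T p m)
        else (match p with | 0 => false | p + 1 => X.chkValF T p m)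
      | _ => false

/-- the additional conditions on a facet for the fast tests -/
structure VData.Nd (X : VData) (t : ST ℕ) : Prop where
  det : ∀ x ∈ vl t, ∀ y ∈ vl t, qdet (-1) 1 (X.mat (X.lab (X.fold x) (X.fold y))) ≠ (0, 0)
  pos : ∀ x ∈ vl t, X.q (X.fold x) ≠ ((0, 0), (0, 0))

theorem VData.fvalF_eq {X : VData} {t : ST ℕ} (h : X.Nd t) : X.fvalF t = X.fval t := by
  have m0 : t.2.1 ∈ vl t := by simp [vl]
  have m1 : t.2.2.1 ∈ vl t := by simp [vl]
  have m2 : t.2.2.2.1 ∈ vl t := by simp [vl]
  have m3 : t.2.2.2.2 ∈ vl t := by simp [vl]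
  unfold VData.fval VData.fvalF
  dsimp only
  rw [decide_eq_true (h.det _ m0 _ m1), decide_eq_true (h.det _ m0 _ m2),
    decide_eq_true (h.det _ m0 _ m3), decide_eq_true (h.pos _ m0), decide_eq_true (h.pos _ m1),
    decide_eq_true (h.pos _ m2), decide_eq_true (h.pos _ m3)]
  rfl

theorem any_side (X : VData) (t : ST ℕ) : (vl t).any X.side =
    (X.side t.2.1 || X.side t.2.2.1 || X.side t.2.2.2.1 || X.side t.2.2.2.2) := by
  simp [vl, List.any_cons, Bool.or_assoc]

theorem VData.chkValF_eq (X : VData) : ∀ (T : List (ST ℕ)) (p m : ℕ), (∀ t ∈ T, X.Nd t) →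
    X.chkValF T p m = X.chkVal T p m
  | [], p, m => fun _ => rfl
  | t :: T, p, m => fun h => by
    have ih : ∀ p m, X.chkValF T p m = X.chkVal T p m := fun p m =>
      X.chkValF_eq T p m (fun s hs => h s (List.mem_cons_of_mem _ hs))
    rw [VData.chkValF.eq_def, VData.chkVal.eq_def]
    dsimp only
    rw [any_side, VData.fvalF_eq (h t List.mem_cons_self)]
    simp only [ih]
    rfl

theorem VData.nd_of_lab (X : VData) {n : ℕ} {t : RT} {bd : ℕ → Bool} {T : List (ST ℕ)}
    (hn : n + X.nB ≤ 2 * X.nU) (h0 : X.mat 0 = idQM) (hlab : ∀ u, X.lab u u = 0)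
    (hM : X.chkMat t.toList = true) (hQ : X.chkQ = true)
    (h : chkLabW n X.nU X.nB X.lab t.has bd T = true) : ∀ s ∈ T, X.Nd s := by
  intro s hs
  have h1 := List.all_eq_true.1 h _ hs
  simp only [facetW, Bool.and_eq_true, Nat.blt_eq] at h1
  obtain ⟨⟨⟨⟨⟨ha1, hb1⟩, hc1⟩, hd1⟩, h2⟩, h3⟩ := h1
  simp only [facetOK, Bool.and_eq_true] at h3
  have hrel : ∀ i j l, t.has i j l = true →
      qdet (-1) 1 (X.mat i) ≠ (0, 0) ∧ qdet (-1) 1 (X.mat j) ≠ (0, 0) := by
    intro i j l hl
    have h4 := RT.has_sound t hl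
    unfold VData.chkMat at hM
    have h5 : relQ X.mat i j l = true := List.all_eq_true.1 hM _ h4
    unfold relQ at h5
    simp only [Bool.and_eq_true, decide_eq_true_eq] at h5
    exact h5.1
  have hc := h3.1.1.1.1.1.1
  simp only [cocOK, Bool.and_eq_true] at hc
  obtain ⟨⟨⟨⟨⟨⟨⟨⟨hab, hac⟩, had⟩, habc⟩, habd⟩, hacb⟩, hacd⟩, hadb⟩, hadc⟩ := hc
  have hid : ∀ u, qdet (-1) 1 (X.mat (X.lab u u)) ≠ (0, 0) := by
    intro u
    rw [hlab, h0]
    decide
  constructor
  · intro x hx y hy
    simp only [vl, List.mem_cons, List.not_mem_nil, or_false] at hx hy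
    simp only [VData.fold_eq]
    rcases hx with rfl | rfl | rfl | rfl
    · rcases hy with rfl | rfl | rfl | rfl
      · exact hid _
      · exact (hrel _ _ _ hab).1
      · exact (hrel _ _ _ hac).1
      · exact (hrel _ _ _ had).1
    · rcases hy with rfl | rfl | rfl | rfl
      · exact (hrel _ _ _ hab).2
      · exact hid _
      · exact (hrel _ _ _ habc).2
      · exact (hrel _ _ _ habd).2
    · rcases hy with rfl | rfl | rfl | rfl
      · exact (hrel _ _ _ hac).2
      · exact (hrel _ _ _ hacb).2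
      · exact hid _
      · exact (hrel _ _ _ hacd).2
    · rcases hy with rfl | rfl | rfl | rfl
      · exact (hrel _ _ _ had).2
      · exact (hrel _ _ _ hadb).2
      · exact (hrel _ _ _ hadc).2
      · exact hid _
  · have key : ∀ x < n, X.q (X.fold x) ≠ ((0, 0), (0, 0)) := by
      intro x hx
      have h5 : X.fold x < X.nU := by
        rw [VData.fold_eq]
        unfold foldN
        rcases hb : Nat.blt x X.nU with _ | _
        · rw [cond_false]
          have h6 : ¬ x < X.nU := by
            intro hh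
            rw [← Nat.blt_eq, hb] at hh
            exact Bool.noConfusion hh
          change x - X.nU + X.nB < X.nU
          omega
        · rw [cond_true]
          rwa [Nat.blt_eq] at hb
      unfold VData.chkQ at hQ
      rw [List.all_eq_true] at hQ
      exact of_decide_eq_true (hQ _ (List.mem_range.2 h5))
    intro x hx
    simp only [vl, List.mem_cons, List.not_mem_nil, or_false] at hx
    rcases hx with rfl | rfl | rfl | rfl <;> exact key _ (by assumption)

theorem VData.admP_sound {X : VData} {u u' : ℕ}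
    (h1 : qdet (-1) 1 (X.mat (X.lab u u')) ≠ (0, 0)) (h2 : X.q u' ≠ ((0, 0), (0, 0)))
    (h3 : X.q u ≠ ((0, 0), (0, 0))) (h : X.admP u u' = true) :
    permI (X.mat (X.lab u u')) (ptI (X.q u')) = ptI (X.q u) := by
  apply VData.admT_sound
  unfold VData.admT pvTest
  have h4 := qact_ne_zero h1 h2
  unfold VData.admP at h
  rw [h, decide_eq_true h1, decide_eq_true h2, decide_eq_true h3, decide_eq_true h4]
  rfl

/-- the test of the boundary labels in a facet is sound -/
theorem VData.admP_of_admF {X : VData} {t : ST ℕ} (hN : X.Nd t) (hlab : ∀ u, X.lab u u = 0)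
    (h0 : X.mat 0 = idQM)
    (hc : ∀ x ∈ vl t, ∀ y ∈ vl t, ∀ z ∈ vl t,
      permI (X.mat (X.lab (X.fold x) (X.fold y))) * permI (X.mat (X.lab (X.fold y) (X.fold z))) =
        permI (X.mat (X.lab (X.fold x) (X.fold z)))) (h : X.admF t = true) : X.AdmP t := by
  intro hs
  have h1 : (vl t).any X.side = true := List.any_eq_true.2 hs
  rw [any_side] at h1
  unfold VData.admF at h
  rw [h1, cond_true] at h
  simp only [Bool.and_eq_true] at h
  obtain ⟨⟨⟨⟨⟨h01, h02⟩, h03⟩, h12⟩, h13⟩, h23⟩ := h
  have m0 : t.2.1 ∈ vl t := by simp [vl]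
  have m1 : t.2.2.1 ∈ vl t := by simp [vl]
  have m2 : t.2.2.2.1 ∈ vl t := by simp [vl]
  have m3 : t.2.2.2.2 ∈ vl t := by simp [vl]
  have e : ∀ x ∈ vl t, ∀ y ∈ vl t, X.admE x y = true → X.side x = false → X.side y = false →
      permI (X.mat (X.lab (X.fold x) (X.fold y))) (ptI (X.q (X.fold y))) =
        ptI (X.q (X.fold x)) := by
    intro x hx y hy he sx sy
    unfold VData.admE at he
    rw [sx, sy, Bool.false_or, Bool.false_or] at he
    exact VData.admP_sound (hN.det _ hx _ hy) (hN.pos _ hy) (hN.pos _ hx) he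
  have e' : ∀ x ∈ vl t, ∀ y ∈ vl t, X.admE x y = true → X.side y = false → X.side x = false →
      permI (X.mat (X.lab (X.fold y) (X.fold x))) (ptI (X.q (X.fold x))) =
        ptI (X.q (X.fold y)) := by
    intro x hx y hy he sy sx
    have h2 := hc y hy x hx y hy
    have h3 : permI (X.mat (X.lab (X.fold y) (X.fold y))) = 1 := by
      rw [hlab, h0, permI_id]
    rw [h3] at h2
    rw [← e x hx y hy he sx sy, ← Equiv.Perm.mul_apply, h2, Equiv.Perm.one_apply]
  have r : ∀ x, permI (X.mat (X.lab (X.fold x) (X.fold x))) (ptI (X.q (X.fold x))) =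
      ptI (X.q (X.fold x)) := by
    intro x
    rw [hlab, h0, permI_id, Equiv.Perm.one_apply]
  intro x hx y hy
  simp only [vl, List.mem_cons, List.not_mem_nil, or_false] at hx hy
  rcases hx with rfl | rfl | rfl | rfl
  · rcases hy with rfl | rfl | rfl | rfl
    · exact fun _ _ => r _
    · exact e _ m0 _ m1 h01
    · exact e _ m0 _ m2 h02
    · exact e _ m0 _ m3 h03
  · rcases hy with rfl | rfl | rfl | rfl
    · exact e' _ m0 _ m1 h01
    · exact fun _ _ => r _
    · exact e _ m1 _ m2 h12
    · exact e _ m1 _ m3 h13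
  · rcases hy with rfl | rfl | rfl | rfl
    · exact e' _ m0 _ m2 h02
    · exact e' _ m1 _ m2 h12
    · exact fun _ _ => r _
    · exact e _ m2 _ m3 h23
  · rcases hy with rfl | rfl | rfl | rfl
    · exact e' _ m0 _ m3 h03
    · exact e' _ m1 _ m3 h13
    · exact e' _ m2 _ m3 h23
    · exact fun _ _ => r _

/-- **The conditions on the facets** from the fast tests. -/
theorem VData.ok_fast (X : VData) {n : ℕ} {t : RT} {bd : ℕ → Bool} {T : List (ST ℕ)}
    (hn : n + X.nB ≤ 2 * X.nU) (h0 : X.mat 0 = idQM) (hlab : ∀ u, X.lab u u = 0)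
    (hM : X.chkMat t.toList = true) (hQ : X.chkQ = true)
    (h : chkLabW n X.nU X.nB X.lab t.has bd T = true) (ha : T.all X.admF = true) :
    ∀ s ∈ T, X.Ok n s ∧ X.Nd s := by
  intro s hs
  have hN := X.nd_of_lab hn h0 hlab hM hQ h s hs
  refine ⟨?_, hN⟩
  have h1 := List.all_eq_true.1 h _ hs
  simp only [facetW, Bool.and_eq_true, Nat.blt_eq] at h1
  obtain ⟨⟨⟨⟨⟨ha1, hb1⟩, hc1⟩, hd1⟩, h2⟩, h3⟩ := h1
  simp only [facetOK, Bool.and_eq_true] at h3
  have hrel : ∀ i j l, t.has i j l = true →
      permI (X.mat i) * permI (X.mat j) = permI (X.mat l) := by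
    intro i j l hl
    have h4 := RT.has_sound t hl
    unfold VData.chkMat at hM
    exact relQ_sound (List.all_eq_true.1 hM _ h4)
  have hc := fun x y z hx hy hz => coc_of_cocOK (fun i => permI (X.mat i))
    (by rw [h0]; exact permI_id) hlab hrel h3.1.1.1.1.1.1 (x := x) (y := y) (z := z) hx hy hz
  have hc' : ∀ x ∈ vl s, ∀ y ∈ vl s, ∀ z ∈ vl s,
      permI (X.mat (X.lab (X.fold x) (X.fold y))) * permI (X.mat (X.lab (X.fold y) (X.fold z))) =
        permI (X.mat (X.lab (X.fold x) (X.fold z))) := by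
    intro x hx y hy z hz
    exact hc _ _ _ (List.mem_map_of_mem (f := X.fold) hx) (List.mem_map_of_mem (f := X.fold) hy)
      (List.mem_map_of_mem (f := X.fold) hz)
  refine ⟨?_, hc', VData.admP_of_admF hN hlab h0 hc' (List.all_eq_true.1 ha _ hs)⟩
  intro x hx
  simp only [vl, List.mem_cons, List.not_mem_nil, or_false] at hx
  rcases hx with rfl | rfl | rfl | rfl <;> assumption

/-- **Item (5)**: `hg` and `hval` of the main assembly from the fast tests, the values in chunks:
`C` is the list of the chunks of facets with the numbers of positive and negative regular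
simplices. -/
theorem VData.hg_hval (X : VData) {n : ℕ} [NeZero n] {t : RT} {bd : ℕ → Bool}
    {T : List (ST ℕ)} (hn : n + X.nB ≤ 2 * X.nU) (h0 : X.mat 0 = idQM)
    (hlab : ∀ u, X.lab u u = 0) (hM : X.chkMat t.toList = true) (hQ : X.chkQ = true)
    (h : chkLabW n X.nU X.nB X.lab t.has bd T = true) (ha : T.all X.admF = true)
    {C : List (List (ST ℕ) × ℕ × ℕ)} (hT : T = (C.map (fun c => c.1)).flatten)
    (hv : ∀ c ∈ C, X.chkValF c.1 c.2.1 c.2.2 = true)
    (hpm : (C.map (fun c => c.2.1)).sum ≠ (C.map (fun c => c.2.2)).sum) :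
    (∀ t ∈ TF n T, ∀ i ∈ setT t, ∀ j ∈ setT t, ∀ l ∈ setT t,
      (X.D n).g i j * (X.D n).g j l = (X.D n).g i l) ∧
    ((TF n T).map (fun t => (sg t.1 : ℝ) *
      (X.D n).F (tupT t 0, (X.D n).g (tupT t 0) (tupT t 0)) (tupT t 1, (X.D n).g (tupT t 0) (tupT t 1))
        (tupT t 2, (X.D n).g (tupT t 0) (tupT t 2))
        (tupT t 3, (X.D n).g (tupT t 0) (tupT t 3)))).sum ≠ 0 := by
  have hok := X.ok_fast hn h0 hlab hM hQ h ha
  refine ⟨X.hg n (fun t ht => (hok t ht).1), ?_⟩
  subst hT
  have hmem : ∀ c ∈ C, ∀ t ∈ c.1, t ∈ (C.map (fun c => c.1)).flatten := fun c hc t ht =>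
    List.mem_flatten.2 ⟨c.1, List.mem_map_of_mem hc, ht⟩
  exact X.hval_chunks n C (fun c hc t ht => (hok t (hmem c hc t ht)).1)
    (fun c hc => by rw [← X.chkValF_eq _ _ _ (fun t ht => (hok t (hmem c hc t ht)).2)]
                    exact hv c hc) hpm

/-! ### Packed tables -/

/-- entry `i` of a table of integers, `W` bits for each integer `z`, stored as `z + o` -/
def zP (W o tab i : ℕ) : ℤ :=
  Int.subNatNat (Nat.mod (Nat.shiftRight tab (Nat.mul W i)) (Nat.pow 2 W)) o

/-- table of vectors, 4 integers for each vector -/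
def qvP (W o tab i : ℕ) : QV :=
  ((zP W o tab (Nat.mul 4 i), zP W o tab (Nat.add (Nat.mul 4 i) 1)),
    (zP W o tab (Nat.add (Nat.mul 4 i) 2), zP W o tab (Nat.add (Nat.mul 4 i) 3)))

/-- table of matrices, 8 integers for each matrix (`a b c d`, by rows) -/
def qmP (W o tab i : ℕ) : QM := (qvP W o tab (Nat.mul 2 i), qvP W o tab (Nat.add (Nat.mul 2 i) 1))

end Pool.Agent.Helper26.PM
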